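import Mathlib

set_option autoImplicit false

namespace Pool.Agent.Results.MP_c68965_al.Disproof

/-- `G` has `k` pairwise inconjugate maximal subgroups whose intersection is the Frattini
subgroup of `G`. -/
def HasInconjugateFamily (G : Type) [Group G] (k : ℕ) : Prop :=
  ∃ M : Fin k → Subgroup G, (∀ i, IsCoatom (M i)) ∧
    (∀ i j, i ≠ j → ∀ g : G, (M i).map (MulAut.conj g).toMonoidHom ≠ M j) ∧
    (⨅ i, M i) = frattini G

/-- The inconjugate intersection number of `G`: the least `k ≥ 1` such that some `k` pairwise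
inconjugate maximal subgroups of `G` intersect in the Frattini subgroup, and `⊤` if there is no
such family. -/
noncomputable def inconjIntersectionNumber (G : Type) [Group G] : ℕ∞ :=
  sInf {m : ℕ∞ | ∃ k : ℕ, 1 ≤ k ∧ HasInconjugateFamily G k ∧ m = (k : ℕ∞)}

/-- The group `F_q^2 ⋊ F_q^*`, with scalars acting on the plane. -/
@[ext] structure Aff (q : ℕ) where
  /-- first coordinate of the translation part -/
  v : ZMod q
  /-- second coordinate of the translation part -/
  w : ZMod q
  /-- the scalar part -/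
  u : (ZMod q)ˣ

namespace Aff

variable {q : ℕ}

instance : Mul (Aff q) := ⟨fun a b => ⟨a.v + a.u * b.v, a.w + a.u * b.w, a.u * b.u⟩⟩
instance : One (Aff q) := ⟨⟨0, 0, 1⟩⟩
instance : Inv (Aff q) := ⟨fun a => ⟨-((a.u⁻¹ : (ZMod q)ˣ) : ZMod q) * a.v,
  -((a.u⁻¹ : (ZMod q)ˣ) : ZMod q) * a.w, a.u⁻¹⟩⟩

@[simp] lemma mul_v (a b : Aff q) : (a * b).v = a.v + a.u * b.v := rfl
@[simp] lemma mul_w (a b : Aff q) : (a * b).w = a.w + a.u * b.w := rfl
@[simp] lemma mul_u (a b : Aff q) : (a * b).u = a.u * b.u := rfl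
@[simp] lemma one_v : (1 : Aff q).v = 0 := rfl
@[simp] lemma one_w : (1 : Aff q).w = 0 := rfl
@[simp] lemma one_u : (1 : Aff q).u = 1 := rfl
@[simp] lemma inv_v (a : Aff q) : (a⁻¹).v = -((a.u⁻¹ : (ZMod q)ˣ) : ZMod q) * a.v := rfl
@[simp] lemma inv_w (a : Aff q) : (a⁻¹).w = -((a.u⁻¹ : (ZMod q)ˣ) : ZMod q) * a.w := rfl
@[simp] lemma inv_u (a : Aff q) : (a⁻¹).u = a.u⁻¹ := rfl

instance : Group (Aff q) := Group.ofLeftAxioms
  (by
    intro a b c
    ext
    · simp; ring
    · simp; ring
    · simp [mul_assoc])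
  (by
    intro a
    ext
    · simp
    · simp
    · simp)
  (by
    intro a
    ext
    · simp
    · simp
    · simp)

/-- An equivalence with the product type. -/
def equivProd (q : ℕ) : Aff q ≃ (ZMod q × ZMod q) × (ZMod q)ˣ where
  toFun a := ((a.v, a.w), a.u)
  invFun p := ⟨p.1.1, p.1.2, p.2⟩
  left_inv _ := rfl
  right_inv _ := rfl

instance (q : ℕ) [NeZero q] : Finite (Aff q) := Finite.of_equiv _ (equivProd q).symm

/-- Projection to the scalar part. -/
def toUnits (q : ℕ) : Aff q →* (ZMod q)ˣ where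
  toFun a := a.u
  map_one' := rfl
  map_mul' _ _ := rfl

/-- Inclusion of the translations. -/
def ofVec (q : ℕ) : Multiplicative (ZMod q × ZMod q) →* Aff q where
  toFun p := ⟨p.toAdd.1, p.toAdd.2, 1⟩
  map_one' := rfl
  map_mul' a b := by ext <;> simp

instance (q : ℕ) : Group.IsSolvable (Aff q) := by
  refine Group.isSolvable_of_ker_le_range (ofVec q) (toUnits q) ?_
  intro a ha
  have ha' : a.u = 1 := ha
  exact ⟨Multiplicative.ofAdd (a.v, a.w), by ext <;> simp [ofVec, ha']⟩

/-- The stabilizer of the point `x` for the affine action of `F_q^2 ⋊ F_q^*` on `F_q` through the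
linear functional `(α, β)`. -/
def stab (q : ℕ) (α β x : ZMod q) : Subgroup (Aff q) where
  carrier := {a | α * a.v + β * a.w + a.u * x = x}
  one_mem' := by simp
  mul_mem' := by
    intro a b ha hb
    simp only [Set.mem_ofPred_eq, mul_v, mul_w, mul_u, Units.val_mul] at *
    linear_combination ha + (a.u : ZMod q) * hb
  inv_mem' := by
    intro a ha
    simp only [Set.mem_ofPred_eq, inv_v, inv_w, inv_u] at *
    have h : ((a.u⁻¹ : (ZMod q)ˣ) : ZMod q) * (a.u : ZMod q) = 1 := Units.inv_mul a.u
    linear_combination (-((a.u⁻¹ : (ZMod q)ˣ) : ZMod q)) * ha + x * h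

lemma mem_stab {α β x : ZMod q} {a : Aff q} :
    a ∈ stab q α β x ↔ α * a.v + β * a.w + a.u * x = x := Iff.rfl

/-- These stabilizers are maximal subgroups. -/
lemma isCoatom_stab [Fact q.Prime] {α β : ZMod q} (h : α ≠ 0 ∨ β ≠ 0) (x : ZMod q) :
    IsCoatom (stab q α β x) := by
  -- every value is taken by the functional
  have hsurj : ∀ z : ZMod q, ∃ v w : ZMod q, α * v + β * w = z := by
    intro z
    rcases h with h | h
    · exact ⟨α⁻¹ * z, 0, by field_simp; simp⟩
    · exact ⟨0, β⁻¹ * z, by field_simp; simp⟩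
  constructor
  · intro htop
    obtain ⟨v, w, hvw⟩ := hsurj 1
    have : (⟨v, w, 1⟩ : Aff q) ∈ stab q α β x := by rw [htop]; trivial
    rw [mem_stab] at this
    simp only [Units.val_one, one_mul] at this
    have h1 : (1 : ZMod q) = 0 := by linear_combination this - hvw
    exact one_ne_zero h1
  · intro K hK
    obtain ⟨hle, k, hkK, hk⟩ := SetLike.lt_iff_le_and_exists.1 hK
    rw [mem_stab] at hk
    -- a translation in K outside of the stabilizer
    obtain ⟨v', w', hm⟩ := hsurj (x - ((k.u⁻¹ : (ZMod q)ˣ) : ZMod q) * x)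
    have hmS : (⟨v', w', k.u⁻¹⟩ : Aff q) ∈ stab q α β x := by
      rw [mem_stab]
      linear_combination hm
    have htK : k * ⟨v', w', k.u⁻¹⟩ ∈ K := K.mul_mem hkK (hle hmS)
    set t : Aff q := k * ⟨v', w', k.u⁻¹⟩ with ht
    have htu : t.u = 1 := by simp [ht]
    set δ : ZMod q := α * t.v + β * t.w with hδ
    have hδ0 : δ ≠ 0 := by
      intro h0
      apply hk
      have h2 : (k.u : ZMod q) * ((k.u⁻¹ : (ZMod q)ˣ) : ZMod q) = 1 := Units.mul_inv k.u
      have h1 : δ = α * k.v + β * k.w + k.u * (α * v' + β * w') := by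
        simp only [hδ, ht, mul_v, mul_w]; ring
      rw [h0, hm] at h1
      linear_combination -h1 + x * h2
    rw [eq_top_iff]
    intro g _
    set γ : ZMod q := α * g.v + β * g.w + g.u * x - x with hγ
    by_cases hγ0 : γ = 0
    · exact hle (by rw [mem_stab]; linear_combination hγ0)
    · -- conjugate t by an element of the stabilizer
      have hc : γ / δ ≠ 0 := div_ne_zero hγ0 hδ0
      obtain ⟨v1, w1, h1⟩ := hsurj (x - (γ / δ) * x)
      have hm1 : (⟨v1, w1, Units.mk0 (γ / δ) hc⟩ : Aff q) ∈ stab q α β x := by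
        rw [mem_stab]; simp only [Units.val_mk0]; linear_combination h1
      set m : Aff q := ⟨v1, w1, Units.mk0 (γ / δ) hc⟩ with hmdef
      have hcK : m * t * m⁻¹ ∈ K := K.mul_mem (K.mul_mem (hle hm1) htK) (K.inv_mem (hle hm1))
      have hgK : (m * t * m⁻¹)⁻¹ * g ∈ K := by
        apply hle
        rw [mem_stab]
        have hu : (m * t * m⁻¹).u = 1 := by simp [htu]
        have hv : (m * t * m⁻¹).v = (γ / δ) * t.v := by
          simp [htu, hmdef]
          field_simp
          ring
        have hw : (m * t * m⁻¹).w = (γ / δ) * t.w := by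
          simp [htu, hmdef]
          field_simp
          ring
        simp only [mul_v, mul_w, mul_u, inv_v, inv_w, inv_u, hu, hv, hw, inv_one, Units.val_one,
          one_mul]
        have h3 : γ / δ * δ = γ := by field_simp
        linear_combination (-1 : ZMod q) * h3
      have : (m * t * m⁻¹) * ((m * t * m⁻¹)⁻¹ * g) ∈ K := K.mul_mem hcK hgK
      rwa [mul_inv_cancel_left] at this

/-- Conjugates of stabilizers belonging to functionals with different kernels are different. -/
lemma inconj [Fact q.Prime] {α β α' β' : ZMod q} (x x' : ZMod q)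
    (h : α * β' - α' * β ≠ 0) (g : Aff q) :
    (stab q α β x).map (MulAut.conj g).toMonoidHom ≠ stab q α' β' x' := by
  intro heq
  have h1 : (⟨-β, α, 1⟩ : Aff q) ∈ stab q α β x := by
    rw [mem_stab]; simp; ring
  have h2 : g * ⟨-β, α, 1⟩ * g⁻¹ ∈ stab q α' β' x' := by
    rw [← heq]
    exact ⟨_, h1, rfl⟩
  rw [mem_stab] at h2
  simp only [mul_v, mul_w, mul_u, inv_v, inv_w, inv_u, mul_one, mul_inv_cancel, Units.val_one,
    one_mul] at h2
  have h3 : (g.u : ZMod q) * ((g.u⁻¹ : (ZMod q)ˣ) : ZMod q) = 1 := Units.mul_inv g.u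
  have h4 : (g.u : ZMod q) * (α * β' - α' * β) = 0 := by
    linear_combination h2 + (α' * g.v + β' * g.w) * h3
  rcases mul_eq_zero.1 h4 with h5 | h5
  · exact g.u.ne_zero h5
  · exact h h5

end Aff

open Aff

lemma family (q : ℕ) [Fact q.Prime] : HasInconjugateFamily (Aff q) 3 := by
  refine ⟨![stab q 0 1 0, stab q 1 0 0, stab q 1 (-1) 1], ?_, ?_, ?_⟩
  · intro i
    fin_cases i
    · exact isCoatom_stab (Or.inr one_ne_zero) 0
    · exact isCoatom_stab (Or.inl one_ne_zero) 0
    · exact isCoatom_stab (Or.inl one_ne_zero) 1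
  · intro i j hij g
    fin_cases i <;> fin_cases j <;> first
      | exact absurd rfl hij
      | exact inconj _ _ (by simp) g
  · have hbot : (⨅ i, (![stab q 0 1 0, stab q 1 0 0, stab q 1 (-1) 1] :
        Fin 3 → Subgroup (Aff q)) i) = ⊥ := by
      rw [eq_bot_iff]
      intro a ha
      rw [Subgroup.mem_iInf] at ha
      have h0 : a ∈ stab q 0 1 0 := ha 0
      have h1 : a ∈ stab q 1 0 0 := ha 1
      have h2 : a ∈ stab q 1 (-1) 1 := ha 2
      rw [mem_stab] at h0 h1 h2
      have hw : a.w = 0 := by linear_combination h0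
      have hv : a.v = 0 := by linear_combination h1
      have hu : a.u = 1 := by
        ext
        rw [Units.val_one]
        linear_combination h2 - hv + hw
      rw [Subgroup.mem_bot]
      ext
      · exact hv
      · exact hw
      · rw [hu]; rfl
    rw [hbot]
    symm
    rw [eq_bot_iff, ← hbot]
    refine le_iInf fun i => frattini_le_coatom ?_
    fin_cases i
    · exact isCoatom_stab (Or.inr one_ne_zero) 0
    · exact isCoatom_stab (Or.inl one_ne_zero) 0
    · exact isCoatom_stab (Or.inl one_ne_zero) 1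

/-- For every `n` there is a nontrivial finite solvable group `G` whose inconjugate intersection
number is at most `3` and whose order has at least `n` distinct prime divisors. -/
theorem result (n : ℕ) : ∃ (G : Type) (_ : Group G), Finite G ∧ Nontrivial G ∧
    Group.IsSolvable G ∧ inconjIntersectionNumber G ≤ 3 ∧ n ≤ (Nat.card G).primeFactors.card := by
  -- a number with exactly n distinct prime factors
  set P : ℕ := ∏ i ∈ Finset.range n, Nat.nth Nat.Prime i with hP
  have hprime : ∀ i, (Nat.nth Nat.Prime i).Prime := fun i => Nat.prime_nth_prime i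
  have hP0 : P ≠ 0 := Finset.prod_ne_zero_iff.2 fun i _ => (hprime i).ne_zero
  obtain ⟨q, hq, hgt, hmod⟩ := Nat.exists_prime_gt_modEq_one (k := P) 2 hP0
  have : Fact q.Prime := ⟨hq⟩
  have : NeZero q := ⟨hq.ne_zero⟩
  have hcard : Nat.card (Aff q) = q * q * (q - 1) := by
    rw [Nat.card_congr (equivProd q), Nat.card_prod, Nat.card_prod, Nat.card_zmod,
      Nat.card_eq_fintype_card, ZMod.card_units_eq_totient, Nat.totient_prime hq]
  refine ⟨Aff q, inferInstance, inferInstance, ?_, inferInstance, ?_, ?_⟩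
  · rw [← Finite.one_lt_card_iff_nontrivial, hcard]
    have h1 : 1 ≤ q - 1 := by omega
    calc 1 < q := hq.one_lt
      _ ≤ q * q := Nat.le_mul_of_pos_left q hq.pos
      _ ≤ q * q * (q - 1) := Nat.le_mul_of_pos_right _ h1
  · exact sInf_le ⟨3, by norm_num, family q, by norm_num⟩
  · have hdvd : P ∣ q - 1 := (Nat.modEq_iff_dvd' hq.one_lt.le).1 hmod.symm
    have hsub : (Finset.range n).image (Nat.nth Nat.Prime) ⊆ (Nat.card (Aff q)).primeFactors := by
      intro p hp
      obtain ⟨i, hi, rfl⟩ := Finset.mem_image.1 hp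
      rw [Nat.mem_primeFactors]
      refine ⟨hprime i, ?_, ?_⟩
      · rw [hcard]
        exact ((Finset.dvd_prod_of_mem _ hi).trans hdvd).trans (Dvd.intro_left _ rfl)
      · rw [hcard]
        have : q - 1 ≠ 0 := by omega
        exact Nat.mul_ne_zero (Nat.mul_ne_zero hq.ne_zero hq.ne_zero) this
    calc n = ((Finset.range n).image (Nat.nth Nat.Prime)).card := by
          rw [Finset.card_image_of_injective _
            (Nat.nth_injective Nat.infinite_setOfPred_prime), Finset.card_range]
      _ ≤ _ := Finset.card_le_card hsub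

end Pool.Agent.Results.MP_c68965_al.Disproof
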